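import Pool.Agent.W809.FKM.Bridge

/-!
# The common gap of a time reversal symmetric interface is absolutely continuous spectrum

`H₊`, `H₋` local time reversal symmetric Hamiltonians on `ℓ²(ℤ²; ℂ^m)`, `Ω ⊆ ℝ² = ℂ` such that `Ω`
and its complement contain parabolic regions, `Ĥ` a time reversal symmetric interface Hamiltonian
compatible with `H₊`, `H₋` and `Ω`. If the Fu-Kane-Mele indices of `H₊` and `H₋` are different at
the energies of the common gap `G`, then `G ⊆ Spec_ac(Ĥ)`.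

The definitions are in `Pool.Agent.W809.FKM.Pub`.
-/

set_option autoImplicit false

open Pool.Agent.W809.FKM.Pub

namespace Pool.Agent.Results.MP_120ee9_mp.CurvedEdge

theorem result (m : ℕ) (Θ : Hilb m → Hilb m) (Hp Hm Hh : Op m) (Ω : Set ℂ) (G : Set ℝ)
    (hΘ : AntiunitarySqNegOne Θ) (hX : CommutesWithPositions Θ)
    (hp : IsTRSHamiltonian Θ Hp) (hm : IsTRSHamiltonian Θ Hm) (hh : IsTRSHamiltonian Θ Hh)
    (hΩ : ContainsParabolicRegion Ω) (hΩc : ContainsParabolicRegion Ωᶜ)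
    (hI : InterfaceCondition Hp Hm Hh Ω)
    (hG : ∀ e ∈ G, InGap Hp e ∧ InGap Hm e ∧ fkmIndex Hp e ≠ fkmIndex Hm e) :
    G ⊆ acSpectrum Hh :=
  Pool.Agent.W809.FKM.Bridge.main m Θ Hp Hm Hh Ω G hΘ hX hp hm hh hΩ hΩc hI hG

end Pool.Agent.Results.MP_120ee9_mp.CurvedEdge
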